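import Pool.Agent.K1H25.JS.Stm

/-!
# MP_5175aa_an : growth facts about the joint spectral radius (piece `S_GROW`)
-/

namespace Pool.Agent.K1H26.JS

open K1H25.JS Matrix Filter Topology

/-! ## nonnegative matrices with diagonal entries at least one -/

/-- entries of the product of two matrices -/
theorem mul00 (X Y : M2) : (X * Y) 0 0 = X 0 0 * Y 0 0 + X 0 1 * Y 1 0 := by
  simp [Matrix.mul_apply, Fin.sum_univ_two]
theorem mul01 (X Y : M2) : (X * Y) 0 1 = X 0 0 * Y 0 1 + X 0 1 * Y 1 1 := by
  simp [Matrix.mul_apply, Fin.sum_univ_two]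
theorem mul10 (X Y : M2) : (X * Y) 1 0 = X 1 0 * Y 0 0 + X 1 1 * Y 1 0 := by
  simp [Matrix.mul_apply, Fin.sum_univ_two]
theorem mul11 (X Y : M2) : (X * Y) 1 1 = X 1 0 * Y 0 1 + X 1 1 * Y 1 1 := by
  simp [Matrix.mul_apply, Fin.sum_univ_two]

/-- nonnegative entries, diagonal at least one -/
structure Good (X : M2) : Prop where
  a : 1 ≤ X 0 0
  b : 0 ≤ X 0 1
  c : 0 ≤ X 1 0
  d : 1 ≤ X 1 1

theorem good_one : Good (1 : M2) := ⟨by simp, by simp, by simp, by simp⟩
theorem good_A0 : Good A0 := ⟨by simp [A0], by simp [A0], by simp [A0], by simp [A0]⟩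
theorem good_A1 : Good A1 := ⟨by simp [A1], by simp [A1], by simp [A1], by simp [A1]⟩

theorem Good.mul {X Y : M2} (hX : Good X) (hY : Good Y) : Good (X * Y) := by
  obtain ⟨a, b, c, d⟩ := hX
  obtain ⟨a', b', c', d'⟩ := hY
  refine ⟨?_, ?_, ?_, ?_⟩
  · rw [mul00]
    have := mul_nonneg b c'
    nlinarith
  · rw [mul01]
    have h1 := mul_nonneg (le_trans zero_le_one a) b'
    have h2 := mul_nonneg b (le_trans zero_le_one d')
    linarith
  · rw [mul10]
    have h1 := mul_nonneg c (le_trans zero_le_one a')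
    have h2 := mul_nonneg (le_trans zero_le_one d) c'
    linarith
  · rw [mul11]
    have := mul_nonneg c b'
    nlinarith

theorem good_ev (w : List Bool) : Good (ev A0 A1 w) := by
  induction w with
  | nil => exact good_one
  | cons b w ih =>
    cases b
    · exact good_A0.mul ih
    · exact good_A1.mul ih

theorem nrm_eq (X : M2) : nrm X = |X 0 0| + |X 0 1| + (|X 1 0| + |X 1 1|) := by
  simp [nrm, Fin.sum_univ_two]

theorem Good.nrm {X : M2} (hX : Good X) :
    nrm X = X 0 0 + X 0 1 + (X 1 0 + X 1 1) := by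
  obtain ⟨a, b, c, d⟩ := hX
  rw [nrm_eq, abs_of_nonneg (le_trans zero_le_one a), abs_of_nonneg b, abs_of_nonneg c,
    abs_of_nonneg (le_trans zero_le_one d)]

theorem Good.two_le {X : M2} (hX : Good X) : 2 ≤ K1H25.JS.nrm X := by
  rw [hX.nrm]
  obtain ⟨a, b, c, d⟩ := hX
  linarith

theorem Good.pos {X : M2} (hX : Good X) : 0 < K1H25.JS.nrm X := by
  have := hX.two_le
  linarith

/-- submultiplicativity -/
theorem nrm_mul_le {X Y : M2} (hX : Good X) (hY : Good Y) :
    nrm (X * Y) ≤ nrm X * nrm Y := by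
  rw [(hX.mul hY).nrm, hX.nrm, hY.nrm, mul00, mul01, mul10, mul11]
  obtain ⟨a, b, c, d⟩ := hX
  obtain ⟨a', b', c', d'⟩ := hY
  have a0 : 0 ≤ X 0 0 := le_trans zero_le_one a
  have d0 : 0 ≤ X 1 1 := le_trans zero_le_one d
  have a0' : 0 ≤ Y 0 0 := le_trans zero_le_one a'
  have d0' : 0 ≤ Y 1 1 := le_trans zero_le_one d'
  nlinarith [mul_nonneg a0 c', mul_nonneg a0 d0', mul_nonneg b a0', mul_nonneg b b',
    mul_nonneg c c', mul_nonneg c d0', mul_nonneg d0 a0', mul_nonneg d0 b']

/-- the product of the two letters dominates the all ones matrix -/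
theorem nrm_mid {X Y : M2} (hX : Good X) (hY : Good Y) :
    nrm X * nrm Y ≤ nrm (X * (A0 * (A1 * Y))) := by
  have hg : Good (X * (A0 * (A1 * Y))) := hX.mul (good_A0.mul (good_A1.mul hY))
  rw [hg.nrm, hX.nrm, hY.nrm]
  simp only [mul00, mul01, mul10, mul11]
  obtain ⟨a, b, c, d⟩ := hX
  obtain ⟨a', b', c', d'⟩ := hY
  have a0 : 0 ≤ X 0 0 := le_trans zero_le_one a
  have d0 : 0 ≤ X 1 1 := le_trans zero_le_one d
  have a0' : 0 ≤ Y 0 0 := le_trans zero_le_one a'
  have d0' : 0 ≤ Y 1 1 := le_trans zero_le_one d'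
  simp only [A0, A1, Matrix.of_apply, Matrix.cons_val', Matrix.cons_val_zero,
    Matrix.cons_val_one, Matrix.cons_val_fin_one]
  nlinarith [mul_nonneg a0 a0', mul_nonneg a0 b', mul_nonneg c a0', mul_nonneg c b']

/-! ## words -/

theorem ev_append (w v : List Bool) : ev A0 A1 (w ++ v) = ev A0 A1 w * ev A0 A1 v := by
  induction w with
  | nil => simp [ev]
  | cons b w ih => cases b <;> simp [ev, ih, mul_assoc]

theorem prod_letter (t : ℝ) (w : List Bool) :
    (w.map (letter (Real.exp t))).prod = (Real.exp t) ^ (w.count true) • ev A0 A1 w := by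
  induction w with
  | nil => simp [ev]
  | cons b w ih =>
    cases b
    · simp [ev, letter, ih]
    · simp [ev, letter, ih, pow_succ, smul_smul]

theorem nrm_smul (c : ℝ) (hc : 0 ≤ c) (X : M2) : nrm (c • X) = c * nrm X := by
  rw [nrm_eq, nrm_eq]
  simp only [Matrix.smul_apply, smul_eq_mul, abs_mul, abs_of_nonneg hc]
  ring

theorem nrm_prod (t : ℝ) (w : List Bool) :
    nrm ((w.map (letter (Real.exp t))).prod) = Real.exp (wt t w) := by
  rw [prod_letter, nrm_smul _ (by positivity), wt, Real.exp_add, Real.exp_log (good_ev w).pos,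
    ← Real.exp_nat_mul]
  congr 2
  ring

theorem wt_append_le (t : ℝ) (w v : List Bool) : wt t (w ++ v) ≤ wt t w + wt t v := by
  unfold wt
  rw [ev_append, List.count_append]
  have h := Real.log_le_log ((good_ev w).mul (good_ev v)).pos (nrm_mul_le (good_ev w) (good_ev v))
  rw [Real.log_mul (good_ev w).pos.ne' (good_ev v).pos.ne'] at h
  push_cast
  linarith

theorem wt_mid (t : ℝ) (w v : List Bool) :
    wt t w + wt t v + t ≤ wt t (w ++ (false :: true :: v)) := by
  unfold wt
  rw [ev_append, List.count_append]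
  have h := Real.log_le_log (mul_pos (good_ev w).pos (good_ev v).pos)
    (nrm_mid (good_ev w) (good_ev v))
  rw [Real.log_mul (good_ev w).pos.ne' (good_ev v).pos.ne'] at h
  have e : ev A0 A1 (false :: true :: v) = A0 * (A1 * ev A0 A1 v) := rfl
  rw [e]
  simp only [List.count_cons_self, List.count_cons_of_ne (show false ≠ true by decide)]
  push_cast
  linarith

/-! ## the maximal weight of words of length `n` -/

/-- maximal weight of the words of length `n` -/
noncomputable def mx (t : ℝ) (n : ℕ) : ℝ :=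
  Finset.univ.sup' Finset.univ_nonempty fun i : Fin n → Bool => wt t (List.ofFn i)

theorem le_mx (t : ℝ) {n : ℕ} (w : List Bool) (hw : w.length = n) : wt t w ≤ mx t n := by
  subst hw
  have := Finset.le_sup' (fun i : Fin w.length → Bool => wt t (List.ofFn i))
    (Finset.mem_univ w.get)
  rw [mx]
  refine le_trans (le_of_eq ?_) this
  simp

theorem exists_mx (t : ℝ) (n : ℕ) : ∃ w : List Bool, w.length = n ∧ wt t w = mx t n := by
  obtain ⟨i, -, hi⟩ := Finset.exists_mem_eq_sup' (Finset.univ_nonempty (α := Fin n → Bool))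
    (fun i : Fin n → Bool => wt t (List.ofFn i))
  exact ⟨List.ofFn i, by simp, by rw [mx, hi]⟩

theorem mx_sub (t : ℝ) : Subadditive (mx t) := by
  intro a b
  obtain ⟨w, hw, h⟩ := exists_mx t (a + b)
  rw [← h, ← List.take_append_drop a w]
  refine (wt_append_le _ _ _).trans (add_le_add (le_mx _ _ ?_) (le_mx _ _ ?_))
  · simp [hw]
  · simp [hw]

theorem mx_super (t : ℝ) (a b : ℕ) : mx t a + mx t b + t - mx t 2 ≤ mx t (a + b) := by
  obtain ⟨w, hw, h⟩ := exists_mx t a
  obtain ⟨v, hv, h'⟩ := exists_mx t b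
  have h1 := wt_mid t w v
  have h2 : wt t (w ++ (false :: true :: v)) ≤ mx t (a + b + 2) := le_mx _ _ (by simp; omega)
  have h3 := mx_sub t (a + b) 2
  rw [h, h'] at h1
  linarith

theorem mx_nonneg (t : ℝ) (n : ℕ) : 0 ≤ mx t n := by
  have h := le_mx (n := n) t (List.replicate n false) (by simp)
  refine le_trans ?_ h
  unfold wt
  have h0 : (List.replicate n false).count true = 0 := by
    rw [List.count_replicate]; simp
  rw [h0]
  have := Real.log_nonneg (le_trans (by norm_num) (good_ev (List.replicate n false)).two_le)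
  simpa using this

/-- the growth rate -/
theorem exists_rate (t : ℝ) : ∃ L K : ℝ, Tendsto (fun n : ℕ => mx t n / n) atTop (𝓝 L) ∧
    ∀ n : ℕ, L * n ≤ mx t n ∧ mx t n ≤ L * n + K := by
  have hb : BddBelow (Set.range fun n : ℕ => mx t n / n) := by
    refine ⟨0, ?_⟩
    rintro _ ⟨n, rfl⟩
    exact div_nonneg (mx_nonneg t n) (Nat.cast_nonneg n)
  have hlim := (mx_sub t).tendsto_lim hb
  set L := (mx_sub t).lim with hL
  set K := mx t 2 - t with hK
  have hsub : Subadditive fun n => K - mx t n := by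
    intro a b
    have := mx_super t a b
    simp only
    linarith
  have hlim' : Tendsto (fun n : ℕ => (K - mx t n) / n) atTop (𝓝 (0 - L)) := by
    have h0 : Tendsto (fun n : ℕ => K / (n : ℝ)) atTop (𝓝 0) := tendsto_const_div_atTop_nhds_zero_nat K
    refine (h0.sub hlim).congr fun n => ?_
    exact (sub_div _ _ _).symm
  have hb' : BddBelow (Set.range fun n : ℕ => (K - mx t n) / n) := hlim'.bddBelow_range
  have hL' : hsub.lim = 0 - L := tendsto_nhds_unique (hsub.tendsto_lim hb') hlim'
  refine ⟨L, K, hlim, fun n => ?_⟩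
  rcases Nat.eq_zero_or_pos n with rfl | hn
  · have h1 := mx_nonneg t 0
    have h2 := mx_super t 0 0
    simp only [Nat.cast_zero, mul_zero, add_zero] at h2 ⊢
    exact ⟨h1, by linarith⟩
  · have hn' : (0 : ℝ) < n := by exact_mod_cast hn
    have h1 := (mx_sub t).lim_le_div hb hn.ne'
    have h2 := hsub.lim_le_div hb' hn.ne'
    rw [hL'] at h2
    rw [← hL, le_div_iff₀ hn'] at h1
    rw [le_div_iff₀ hn'] at h2
    exact ⟨h1, by linarith⟩

/-! ## the joint spectral radius -/

theorem sup_eq (t : ℝ) (n : ℕ) :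
    (⨆ i : Fin n → Bool, nrm ((List.ofFn fun j => letter (Real.exp t) (i j)).prod) ^
      (1 / (n : ℝ))) = Real.exp (mx t n / n) := by
  have key : ∀ i : Fin n → Bool,
      nrm ((List.ofFn fun j => letter (Real.exp t) (i j)).prod) ^ (1 / (n : ℝ)) =
        Real.exp (wt t (List.ofFn i) / n) := by
    intro i
    have : (List.ofFn fun j => letter (Real.exp t) (i j)) =
        (List.ofFn i).map (letter (Real.exp t)) := by
      rw [List.map_ofFn]; rfl
    rw [this, nrm_prod, ← Real.exp_mul]
    congr 1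
    ring
  simp_rw [key]
  apply le_antisymm
  · apply ciSup_le
    intro i
    apply Real.exp_le_exp.mpr
    apply div_le_div_of_nonneg_right _ (Nat.cast_nonneg n)
    exact le_mx _ _ (by simp)
  · obtain ⟨i, -, hi⟩ := Finset.exists_mem_eq_sup' (Finset.univ_nonempty (α := Fin n → Bool))
      (fun i : Fin n → Bool => wt t (List.ofFn i))
    have h2 := le_ciSup (f := fun i : Fin n → Bool => Real.exp (wt t (List.ofFn i) / n))
      (Set.finite_range _).bddAbove i
    refine le_trans (le_of_eq ?_) h2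
    rw [mx, hi]

theorem jsr_eq (t L : ℝ) (h : Tendsto (fun n : ℕ => mx t n / n) atTop (𝓝 L)) :
    jsr (Real.exp t) = Real.exp L := by
  unfold jsr
  apply Tendsto.limsup_eq
  refine ((Real.continuous_exp.tendsto L).comp h).congr fun n => ?_
  rw [sup_eq]
  rfl

/-! ## compactness -/

theorem isClosed_pre (k : ℕ) (P : List Bool → Prop) : IsClosed {x : ℕ → Bool | P (pre x k)} := by
  induction k generalizing P with
  | zero =>
    by_cases h : P []
    · simp [pre, h]
    · simp [pre, h]
  | succ k ih =>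
    have h1 := ((isClosed_eq (continuous_apply (A := fun _ : ℕ => Bool) k)
      (continuous_const (y := true))).inter (ih fun l => P (true :: l))).union
      ((isClosed_eq (continuous_apply (A := fun _ : ℕ => Bool) k)
      (continuous_const (y := false))).inter (ih fun l => P (false :: l)))
    convert h1 using 1
    ext x
    simp only [pre, Set.mem_ofPred_eq, Set.mem_union, Set.mem_inter_iff]
    cases x k <;> simp

/-- the longer reversed prefix ends with the shorter one -/
theorem pre_add (x : ℕ → Bool) (k j : ℕ) :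
    ∃ v : List Bool, v.length = j ∧ pre x (k + j) = v ++ pre x k := by
  induction j with
  | zero => exact ⟨[], rfl, rfl⟩
  | succ j ih =>
    obtain ⟨v, hv, h⟩ := ih
    exact ⟨x (k + j) :: v, by simp [hv], by rw [← add_assoc, pre, h]; rfl⟩

theorem pre_congr {x y : ℕ → Bool} (n : ℕ) (h : ∀ i < n, x i = y i) : pre x n = pre y n := by
  induction n with
  | zero => rfl
  | succ n ih => rw [pre, pre, h n (Nat.lt_succ_self n), ih fun i hi => h i (Nat.lt_succ_of_lt hi)]

theorem exists_pre (w : List Bool) : ∃ x : ℕ → Bool, pre x w.length = w := by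
  induction w with
  | nil => exact ⟨fun _ => false, rfl⟩
  | cons b w ih =>
    obtain ⟨x, hx⟩ := ih
    refine ⟨fun i => if i = w.length then b else x i, ?_⟩
    rw [List.length_cons, pre]
    simp only [if_true]
    congr 1
    rw [← hx]
    simp only [hx]
    rw [pre_congr (y := x) w.length (fun i hi => by rw [if_neg (ne_of_lt hi)])]
    exact hx

theorem isClosed_win (t L K : ℝ) (n : ℕ) :
    IsClosed {x : ℕ → Bool | ∀ k : ℕ, k ≤ n → L * (k : ℝ) - K ≤ wt t (pre x k)} := by
  have : {x : ℕ → Bool | ∀ k : ℕ, k ≤ n → L * (k : ℝ) - K ≤ wt t (pre x k)} =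
      ⋂ k : ℕ, ⋂ _ : k ≤ n, {x : ℕ → Bool | L * (k : ℝ) - K ≤ wt t (pre x k)} := by
    ext x
    simp
  rw [this]
  exact isClosed_iInter fun k => isClosed_iInter fun _ =>
    isClosed_pre k (fun l => L * (k : ℝ) - K ≤ wt t l)

/-- the piece `S_GROW` -/
theorem t_GROW : K1H25.JS.S_GROW := by
  intro t
  obtain ⟨L, K, hlim, hK⟩ := exists_rate t
  have hj := jsr_eq t L hlim
  have hLam : Lam t = L := by rw [Lam, hj, Real.log_exp]
  refine ⟨by rw [hj]; exact Real.exp_pos _, ⟨K, fun w => ?_⟩, ⟨K, ?_⟩⟩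
  · rw [hLam]
    exact (le_mx t w rfl).trans (hK _).2
  · rw [hLam]
    have hne := IsCompact.nonempty_iInter_of_sequence_nonempty_isCompact_isClosed
      (fun n : ℕ => {x : ℕ → Bool | ∀ k : ℕ, k ≤ n → L * (k : ℝ) - K ≤ wt t (pre x k)})
      (fun n x hx k hk => hx k (hk.trans (Nat.le_succ n)))
      (fun n => ?_) ?_ (fun n => ?_)
    · obtain ⟨x, hx⟩ := hne
      refine ⟨x, fun n => ?_⟩
      exact Set.mem_iInter.mp hx n n le_rfl
    · obtain ⟨w, hw, h⟩ := exists_mx t n
      obtain ⟨x, hx⟩ := exists_pre w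
      refine ⟨x, fun k hk => ?_⟩
      obtain ⟨j, rfl⟩ := Nat.exists_eq_add_of_le hk
      obtain ⟨v, hv, e⟩ := pre_add x k j
      rw [hw, e] at hx
      have h1 := wt_append_le t v (pre x k)
      rw [hx, h] at h1
      have h2 := le_mx t v hv
      have h3 := (hK j).2
      have h4 := (hK (k + j)).1
      push_cast at h4
      nlinarith
    · apply IsClosed.isCompact
      exact isClosed_win t L K 0
    · exact isClosed_win t L K n

end Pool.Agent.K1H26.JS
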